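import Pool.Agent.PRT.StmtsC

/-!
# Row DEV of squad PRT (MP_b2962a_an)

Bounded mean motion from the semi-conjugacy.
-/

set_option autoImplicit false

namespace Pool.Agent.PRT.H53

open Set MeasureTheory
open scoped ContDiff

/-- a continuous periodic function is bounded -/
theorem bounded_of_per {V : Type} [NormedAddCommGroup V] {ψ : E → V} (hc : Continuous ψ)
    (hp : Per ψ) : ∃ C : ℝ, ∀ z, ‖ψ z‖ ≤ C := by
  have hQ : IsCompact (Icc ((0, 0) : ℝ × ℝ) (1, 1)) := isCompact_Icc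
  obtain ⟨C, hC⟩ := hQ.exists_bound_of_continuousOn hc.continuousOn
  refine ⟨C, fun z => ?_⟩
  have h1 : z = (Int.fract z.1, Int.fract z.2) + iv ⌊z.1⌋ ⌊z.2⌋ := by
    ext
    · show z.1 = Int.fract z.1 + (⌊z.1⌋ : ℝ)
      exact (Int.fract_add_floor z.1).symm
    · show z.2 = Int.fract z.2 + (⌊z.2⌋ : ℝ)
      exact (Int.fract_add_floor z.2).symm
  have h2 : ψ z = ψ (Int.fract z.1, Int.fract z.2) := by
    conv_lhs => rw [h1]
    exact hp _ _ _
  rw [h2]
  apply hC
  constructor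
  · exact ⟨Int.fract_nonneg _, Int.fract_nonneg _⟩
  · exact ⟨(Int.fract_lt_one _).le, (Int.fract_lt_one _).le⟩

/-- Row DEV -/
theorem dev : DevStmt := by
  intro F H w hH hE hs
  obtain ⟨C, hC⟩ := bounded_of_per (ψ := fun z => H z - z) (hH.sub continuous_id) (by
    intro a b z
    show H (z + iv a b) - (z + iv a b) = H z - z
    rw [hE a b z]
    abel)
  refine ⟨2 * C, fun n z => ?_⟩
  have h1 : ∀ n : ℕ, H (F^[n] z) = H z + (n : ℝ) • w := by
    intro n
    induction n with
    | zero => simp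
    | succ n ih =>
      rw [Function.iterate_succ_apply', hs, ih]
      push_cast
      rw [add_smul, one_smul]
      abel
  have h2 : F^[n] z - z - (n : ℝ) • w = (H z - z) - (H (F^[n] z) - F^[n] z) := by
    rw [h1 n]
    abel
  rw [h2]
  calc ‖(H z - z) - (H (F^[n] z) - F^[n] z)‖ ≤ ‖H z - z‖ + ‖H (F^[n] z) - F^[n] z‖ := norm_sub_le _ _
    _ ≤ C + C := add_le_add (hC z) (hC (F^[n] z))
    _ = 2 * C := by ring

end Pool.Agent.PRT.H53
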