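import Pool.Agent.PRT.StmtsB

/-!
# Row ITG of squad PRT (MP_b2962a_an)

The integral of the Jacobian of a lift is one (divergence theorem).
-/

set_option autoImplicit false

namespace Pool.Agent.PRT.H53

open Set MeasureTheory
open scoped ContDiff

/-- the derivative of an equivariant map is periodic -/
theorem fderiv_per {U : E → E} (hE : Eqv U) (a b : ℤ) (z : E) :
    fderiv ℝ U (z + iv a b) = fderiv ℝ U z := by
  have h1 : (fun w => U (w + iv a b)) = fun w => U w + iv a b := by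
    funext w
    exact hE a b w
  have h2 : fderiv ℝ (fun w => U (w + iv a b)) z = fderiv ℝ U (z + iv a b) :=
    fderiv_comp_add_right (iv a b)
  have h3 : fderiv ℝ (fun w => U w + iv a b) z = fderiv ℝ U z :=
    fderiv_add_const (iv a b)
  rw [← h2, h1, h3]

/-- Row ITG -/
theorem itg : ItgStmt := by
  intro U hU hE
  have hd : ∀ z, HasFDerivAt U (fderiv ℝ U z) z := by
    intro z
    exact (hU.differentiable (by simp)).differentiableAt.hasFDerivAt
  have hD : ContDiff ℝ ∞ (fderiv ℝ U) := hU.fderiv_right (m := ∞) (by simp)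
  have hdd : ∀ z, HasFDerivAt (fderiv ℝ U) (fderiv ℝ (fderiv ℝ U) z) z := by
    intro z
    exact (hD.differentiable (by simp)).differentiableAt.hasFDerivAt
  have hDD : ContDiff ℝ ∞ (fderiv ℝ (fderiv ℝ U)) := hD.fderiv_right (m := ∞) (by simp)
  have hsym : ∀ z, fderiv ℝ (fderiv ℝ U) z (1, 0) (0, 1) = fderiv ℝ (fderiv ℝ U) z (0, 1) (1, 0) := by
    intro z
    have h1 : ContDiffAt ℝ ∞ U z := hU.contDiffAt
    have h3 : ∀ n : ℕ, (n : ℕ∞ω) ≤ ∞ := fun n => by exact_mod_cast le_top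
    have h4 : (2 : ℕ∞ω) ≤ ∞ := h3 2
    have h2 : ContDiffAt ℝ 2 U z := h1.of_le h4
    exact h2.isSymmSndFDerivAt (by
      rw [minSmoothness_of_isRCLikeNormedField]) (1, 0) (0, 1)
  -- evaluation maps
  let L1 : (E →L[ℝ] E) →L[ℝ] ℝ :=
    (ContinuousLinearMap.snd ℝ ℝ ℝ).comp (ContinuousLinearMap.apply ℝ E ((0, 1) : E))
  let L2 : (E →L[ℝ] E) →L[ℝ] ℝ :=
    (ContinuousLinearMap.snd ℝ ℝ ℝ).comp (ContinuousLinearMap.apply ℝ E ((1, 0) : E))
  have hL1 : ∀ A : E →L[ℝ] E, L1 A = (A (0, 1)).2 := fun A => rfl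
  have hL2 : ∀ A : E →L[ℝ] E, L2 A = (A (1, 0)).2 := fun A => rfl
  have h1 : ∀ z, HasFDerivAt (fun z => (U z).1)
      ((ContinuousLinearMap.fst ℝ ℝ ℝ).comp (fderiv ℝ U z)) z := by
    intro z
    exact (ContinuousLinearMap.fst ℝ ℝ ℝ).hasFDerivAt.comp z (hd z)
  have h2 : ∀ z, HasFDerivAt (fun z => L1 (fderiv ℝ U z))
      (L1.comp (fderiv ℝ (fderiv ℝ U) z)) z := by
    intro z
    exact L1.hasFDerivAt.comp z (hdd z)
  have h3 : ∀ z, HasFDerivAt (fun z => L2 (fderiv ℝ U z))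
      (L2.comp (fderiv ℝ (fderiv ℝ U) z)) z := by
    intro z
    exact L2.hasFDerivAt.comp z (hdd z)
  have hf : ∀ z, HasFDerivAt (fun z => (U z).1 * L1 (fderiv ℝ U z))
      ((U z).1 • (L1.comp (fderiv ℝ (fderiv ℝ U) z)) +
        L1 (fderiv ℝ U z) • ((ContinuousLinearMap.fst ℝ ℝ ℝ).comp (fderiv ℝ U z))) z :=
    fun z => (h1 z).mul (h2 z)
  have hg : ∀ z, HasFDerivAt (fun z => -((U z).1 * L2 (fderiv ℝ U z)))
      (-((U z).1 • (L2.comp (fderiv ℝ (fderiv ℝ U) z)) +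
        L2 (fderiv ℝ U z) • ((ContinuousLinearMap.fst ℝ ℝ ℝ).comp (fderiv ℝ U z)))) z :=
    fun z => ((h1 z).mul (h3 z)).neg
  have hcf : Continuous (fun z => (U z).1 * L1 (fderiv ℝ U z)) := by
    have : ∀ z, ContinuousAt (fun z => (U z).1 * L1 (fderiv ℝ U z)) z :=
      fun z => (hf z).continuousAt
    exact continuous_iff_continuousAt.2 this
  have hcg : Continuous (fun z => -((U z).1 * L2 (fderiv ℝ U z))) := by
    have : ∀ z, ContinuousAt (fun z => -((U z).1 * L2 (fderiv ℝ U z))) z :=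
      fun z => (hg z).continuousAt
    exact continuous_iff_continuousAt.2 this
  -- the divergence is the determinant
  have hdiv : ∀ z, ((U z).1 • (L1.comp (fderiv ℝ (fderiv ℝ U) z)) +
        L1 (fderiv ℝ U z) • ((ContinuousLinearMap.fst ℝ ℝ ℝ).comp (fderiv ℝ U z))) (1, 0)
      + (-((U z).1 • (L2.comp (fderiv ℝ (fderiv ℝ U) z)) +
        L2 (fderiv ℝ U z) • ((ContinuousLinearMap.fst ℝ ℝ ℝ).comp (fderiv ℝ U z)))) (0, 1)
      = (fderiv ℝ U z).det := by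
    intro z
    have e1 : ((U z).1 • (L1.comp (fderiv ℝ (fderiv ℝ U) z)) +
        L1 (fderiv ℝ U z) • ((ContinuousLinearMap.fst ℝ ℝ ℝ).comp (fderiv ℝ U z))) (1, 0)
        = (U z).1 * (fderiv ℝ (fderiv ℝ U) z (1, 0) (0, 1)).2
          + (fderiv ℝ U z (0, 1)).2 * (fderiv ℝ U z (1, 0)).1 := rfl
    have e2 : (-((U z).1 • (L2.comp (fderiv ℝ (fderiv ℝ U) z)) +
        L2 (fderiv ℝ U z) • ((ContinuousLinearMap.fst ℝ ℝ ℝ).comp (fderiv ℝ U z)))) (0, 1)
        = -((U z).1 * (fderiv ℝ (fderiv ℝ U) z (0, 1) (1, 0)).2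
          + (fderiv ℝ U z (1, 0)).2 * (fderiv ℝ U z (0, 1)).1) := rfl
    rw [e1, e2, hsym z, det_eq]
    unfold cr
    ring
  have hdet : Continuous (fun z => (fderiv ℝ U z).det) := by
    have hc : Continuous (fderiv ℝ U) := hD.continuous
    have : (fun z => (fderiv ℝ U z).det)
        = fun z => (fderiv ℝ U z (1, 0)).1 * (fderiv ℝ U z (0, 1)).2
          - (fderiv ℝ U z (1, 0)).2 * (fderiv ℝ U z (0, 1)).1 := by
      funext z
      rw [det_eq]
      rfl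
    rw [this]
    have c1 : Continuous (fun z => fderiv ℝ U z ((1, 0) : E)) := hc.clm_apply continuous_const
    have c2 : Continuous (fun z => fderiv ℝ U z ((0, 1) : E)) := hc.clm_apply continuous_const
    exact (c1.fst.mul c2.snd).sub (c1.snd.mul c2.fst)
  have hQ : Q = Icc ((0, 0) : ℝ × ℝ) (1, 1) := by
    unfold Q
    rw [Set.Icc_prod_Icc]
  have hdivfun : (fun z => ((U z).1 • (L1.comp (fderiv ℝ (fderiv ℝ U) z)) +
        L1 (fderiv ℝ U z) • ((ContinuousLinearMap.fst ℝ ℝ ℝ).comp (fderiv ℝ U z))) (1, 0)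
      + (-((U z).1 • (L2.comp (fderiv ℝ (fderiv ℝ U) z)) +
        L2 (fderiv ℝ U z) • ((ContinuousLinearMap.fst ℝ ℝ ℝ).comp (fderiv ℝ U z)))) (0, 1))
      = fun z => (fderiv ℝ U z).det := by
    funext z
    exact hdiv z
  have key := MeasureTheory.integral_divergence_prod_Icc_of_hasFDerivAt_of_le
    (fun z => (U z).1 * L1 (fderiv ℝ U z)) (fun z => -((U z).1 * L2 (fderiv ℝ U z)))
    (fun z => ((U z).1 • (L1.comp (fderiv ℝ (fderiv ℝ U) z)) +
        L1 (fderiv ℝ U z) • ((ContinuousLinearMap.fst ℝ ℝ ℝ).comp (fderiv ℝ U z))))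
    (fun z => (-((U z).1 • (L2.comp (fderiv ℝ (fderiv ℝ U) z)) +
        L2 (fderiv ℝ U z) • ((ContinuousLinearMap.fst ℝ ℝ ℝ).comp (fderiv ℝ U z)))))
    (0, 0) (1, 1) ⟨zero_le_one, zero_le_one⟩ hcf.continuousOn hcg.continuousOn
    (fun z _ => hf z) (fun z _ => hg z)
    (by
      rw [hdivfun]
      exact hdet.continuousOn.integrableOn_Icc)
  rw [hdivfun, ← hQ] at key
  rw [key]
  -- the boundary terms
  have per1 : ∀ z : E, fderiv ℝ U (z + iv 1 0) = fderiv ℝ U z := fderiv_per hE 1 0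
  have per2 : ∀ z : E, fderiv ℝ U (z + iv 0 1) = fderiv ℝ U z := fderiv_per hE 0 1
  have b1 : ∀ x : ℝ, -((U (x, 1)).1 * L2 (fderiv ℝ U (x, 1)))
      = -((U (x, 0)).1 * L2 (fderiv ℝ U (x, 0))) := by
    intro x
    have e0 : ((x, 1) : E) = (x, 0) + iv 0 1 := by
      ext <;> simp [iv]
    have e1 : (U (x, 1)).1 = (U (x, 0)).1 := by
      rw [e0, hE 0 1 (x, 0)]
      simp [iv]
    have e2 : fderiv ℝ U (x, 1) = fderiv ℝ U (x, 0) := by
      rw [e0, per2]
    rw [e1, e2]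
  have b2 : ∀ y : ℝ, (U (1, y)).1 * L1 (fderiv ℝ U (1, y))
      = (U (0, y)).1 * L1 (fderiv ℝ U (0, y)) + L1 (fderiv ℝ U (0, y)) := by
    intro y
    have e0 : ((1, y) : E) = (0, y) + iv 1 0 := by
      ext <;> simp [iv]
    have e1 : (U (1, y)).1 = (U (0, y)).1 + 1 := by
      rw [e0, hE 1 0 (0, y)]
      simp [iv]
    have e2 : fderiv ℝ U (1, y) = fderiv ℝ U (0, y) := by
      rw [e0, per1]
    rw [e1, e2]
    ring
  have cU : Continuous (fun y : ℝ => (U (0, y)).1 * L1 (fderiv ℝ U (0, y))) :=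
    hcf.comp (by fun_prop : Continuous (fun y : ℝ => ((0, y) : E)))
  have cL : Continuous (fun y : ℝ => L1 (fderiv ℝ U (0, y))) :=
    (L1.continuous.comp hD.continuous).comp (by fun_prop : Continuous (fun y : ℝ => ((0, y) : E)))
  have i1 : ∫ y in (0 : ℝ)..1, (U (1, y)).1 * L1 (fderiv ℝ U (1, y))
      = (∫ y in (0 : ℝ)..1, (U (0, y)).1 * L1 (fderiv ℝ U (0, y)))
        + ∫ y in (0 : ℝ)..1, L1 (fderiv ℝ U (0, y)) := by
    rw [← intervalIntegral.integral_add (cU.intervalIntegrable 0 1) (cL.intervalIntegrable 0 1)]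
    apply intervalIntegral.integral_congr
    intro y _
    exact b2 y
  have i2 : ∫ x in (0 : ℝ)..1, -((U (x, 1)).1 * L2 (fderiv ℝ U (x, 1)))
      = ∫ x in (0 : ℝ)..1, -((U (x, 0)).1 * L2 (fderiv ℝ U (x, 0))) := by
    apply intervalIntegral.integral_congr
    intro x _
    exact b1 x
  have i3 : ∫ y in (0 : ℝ)..1, L1 (fderiv ℝ U (0, y)) = 1 := by
    have hder : ∀ y ∈ Set.uIcc (0 : ℝ) 1,
        HasDerivAt (fun y : ℝ => (U (0, y)).2) (L1 (fderiv ℝ U (0, y))) y := by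
      intro y _
      have k1 : HasDerivAt (fun y : ℝ => ((0, y) : E)) ((0, 1) : E) y := by
        exact (hasDerivAt_const y (0 : ℝ)).prodMk (hasDerivAt_id y)
      have k2 : HasDerivAt (fun y : ℝ => U (0, y)) (fderiv ℝ U (0, y) (0, 1)) y :=
        (hd (0, y)).comp_hasDerivAt y k1
      have k3 := (ContinuousLinearMap.snd ℝ ℝ ℝ).hasFDerivAt.comp_hasDerivAt y k2
      exact k3
    have h4 := intervalIntegral.integral_eq_sub_of_hasDerivAt hder (cL.intervalIntegrable 0 1)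
    rw [h4]
    have e0 : ((0, 1) : E) = (0, 0) + iv 0 1 := by
      ext <;> simp [iv]
    have e1 : (U (0, 1)).2 = (U (0, 0)).2 + 1 := by
      rw [e0, hE 0 1 (0, 0)]
      simp [iv]
    rw [e1]
    ring
  show (((∫ x in (0 : ℝ)..1, -((U (x, 1)).1 * L2 (fderiv ℝ U (x, 1))))
      - ∫ x in (0 : ℝ)..1, -((U (x, 0)).1 * L2 (fderiv ℝ U (x, 0))))
      + ∫ y in (0 : ℝ)..1, (U (1, y)).1 * L1 (fderiv ℝ U (1, y)))
      - ∫ y in (0 : ℝ)..1, (U (0, y)).1 * L1 (fderiv ℝ U (0, y)) = 1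
  rw [i1, i2, i3]
  ring

end Pool.Agent.PRT.H53
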